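import Pool.Agent.Helper46.RO.Base

/-!
# One step of pushing
-/

namespace Pool.Agent.Helper58.RO

open Pool.Agent.Helper46.RO

universe u

/-- The dot product. -/
def dt {n : ℕ} (u v : Fin n → ℤ) : ℝ := ∑ i, (u i : ℝ) * (v i : ℝ)

theorem nrm_cast {n : ℕ} (v : Fin n → ℤ) : ((nrm v : ℤ) : ℝ) = ∑ i, (v i : ℝ) ^ 2 := by
  unfold nrm
  push_cast
  rfl

theorem nrm_nonneg {n : ℕ} (v : Fin n → ℤ) : 0 ≤ nrm v :=
  Finset.sum_nonneg (fun i _ => sq_nonneg _)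

theorem nrm_add_smul {n : ℕ} (u v : Fin n → ℤ) (k : ℕ) :
    ((nrm (u + k • v) : ℤ) : ℝ) = (nrm u : ℝ) + 2 * k * dt u v + (k : ℝ) ^ 2 * (nrm v : ℝ) := by
  rw [nrm_cast, nrm_cast, nrm_cast, dt, Finset.mul_sum, Finset.mul_sum, ← Finset.sum_add_distrib,
    ← Finset.sum_add_distrib]
  refine Finset.sum_congr rfl (fun i _ => ?_)
  rw [Pi.add_apply, Pi.smul_apply, nsmul_eq_mul]
  push_cast
  ring

theorem nrm_add {n : ℕ} (u v : Fin n → ℤ) :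
    ((nrm (u + v) : ℤ) : ℝ) = (nrm u : ℝ) + 2 * dt u v + (nrm v : ℝ) := by
  have h := nrm_add_smul u v 1
  rw [one_smul] at h
  rw [h]
  push_cast
  ring

theorem dt_add {n : ℕ} (u u' v : Fin n → ℤ) : dt (u + u') v = dt u v + dt u' v := by
  unfold dt
  rw [← Finset.sum_add_distrib]
  refine Finset.sum_congr rfl (fun i _ => ?_)
  simp only [Pi.add_apply]
  push_cast
  ring

theorem dt_le {n : ℕ} (u v : Fin n → ℤ) {M : ℝ} (hu : (nrm u : ℝ) ≤ M) (hv : (nrm v : ℝ) ≤ M) :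
    dt u v ≤ M := by
  rw [nrm_cast] at hu hv
  have h : 2 * dt u v ≤ (∑ i, (u i : ℝ) ^ 2) + ∑ i, (v i : ℝ) ^ 2 := by
    rw [dt, Finset.mul_sum, ← Finset.sum_add_distrib]
    refine Finset.sum_le_sum (fun i _ => ?_)
    nlinarith [sq_nonneg ((u i : ℝ) - (v i : ℝ))]
  linarith

section main

variable {L : Type u} [Group L] {X : Finset L} {n : ℕ} {π : L → Fin n → ℤ}

theorem pi_one (hπ : IsHomZ π) : π 1 = 0 := by
  have h := hπ 1 1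
  rw [mul_one] at h
  exact left_eq_add.1 h

theorem pi_pow (hπ : IsHomZ π) (x : L) (k : ℕ) : π (x ^ k) = k • π x := by
  induction k with
  | zero => rw [pow_zero, zero_smul, pi_one hπ]
  | succ k ih => rw [pow_succ, hπ, ih, succ_nsmul]

/-- The direction of the origin, seen from `k`. -/
noncomputable def ww (π : L → Fin n → ℤ) (T : ℝ) (k : L) : Fin n → ℝ :=
  fun i => -(π k i : ℝ) / Real.sqrt T

theorem chr_ww (T : ℝ) (hT : 0 < T) (k v : L) :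
    dt (π k) (π v) = -(Real.sqrt T * chr π (ww π T k) v) := by
  have hr : Real.sqrt T ≠ 0 := (Real.sqrt_pos.2 hT).ne'
  unfold dt chr ww
  rw [Finset.mul_sum, ← Finset.sum_neg_distrib]
  refine Finset.sum_congr rfl (fun i _ => ?_)
  field_simp

theorem ww_unit (T : ℝ) (hT : 0 < T) (k : L) (hk : (nrm (π k) : ℝ) = T) :
    ∑ i, ww π T k i ^ 2 = 1 := by
  have hr : Real.sqrt T ^ 2 = T := Real.sq_sqrt hT.le
  unfold ww
  have e : ∀ i, (-(π k i : ℝ) / Real.sqrt T) ^ 2 = (π k i : ℝ) ^ 2 / T := by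
    intro i
    rw [div_pow, hr, neg_sq]
  simp only [e]
  rw [← Finset.sum_div, ← nrm_cast, hk, div_self hT.ne']

theorem chr_one (hπ : IsHomZ π) (w : Fin n → ℝ) : chr π w 1 = 0 := by
  unfold chr
  rw [pi_one hπ]
  simp

theorem good_pos (hπ : IsHomZ π) {w : Fin n → ℝ} {δ : ℝ} (hδ : 0 < δ) {W : L × ℕ × Finset L}
    (h : Good X π w δ W) : 1 ≤ W.2.1 := by
  by_contra hc
  have h0 : W.2.1 = 0 := by omega
  have h1 := h.2.2 W.1 h.1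
  rw [h0, pow_zero, mul_one] at h1
  rcases Relation.ReflTransGen.cases_head h1 with h2 | ⟨c, h2, _⟩
  · have h3 := h.2.1
    rw [← h2, chr_one hπ] at h3
    linarith
  · have h3 : max 0 (chr π w W.1) + δ ≤ chr π w 1 := h2.1.2
    rw [chr_one hπ] at h3
    have := le_max_left 0 (chr π w W.1)
    linarith

/-- The data of the constants. -/
structure Bds (X : Finset L) (π : L → Fin n → ℤ) (𝒲 : Finset (L × ℕ × Finset L)) (M : ℝ) :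
    Prop where
  nonneg : 0 ≤ M
  letter : ∀ x ∈ X, (nrm (π x) : ℝ) ≤ M
  vertex : ∀ W ∈ 𝒲, ∀ v ∈ W.2.2, (nrm (π v) : ℝ) ≤ M
  expo : ∀ W ∈ 𝒲, (W.2.1 : ℝ) ≤ M

theorem exists_bds (X : Finset L) (π : L → Fin n → ℤ) (𝒲 : Finset (L × ℕ × Finset L)) :
    ∃ M, Bds X π 𝒲 M := by
  refine ⟨(∑ x ∈ X, (nrm (π x) : ℝ)) + (∑ W ∈ 𝒲, ∑ v ∈ W.2.2, (nrm (π v) : ℝ)) +
    ∑ W ∈ 𝒲, (W.2.1 : ℝ), ?_⟩
  have nn : ∀ x, (0 : ℝ) ≤ (nrm (π x) : ℝ) := fun x => by exact_mod_cast nrm_nonneg (π x)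
  have h1 : 0 ≤ ∑ x ∈ X, (nrm (π x) : ℝ) := Finset.sum_nonneg (fun x _ => nn x)
  have h2 : 0 ≤ ∑ W ∈ 𝒲, ∑ v ∈ W.2.2, (nrm (π v) : ℝ) :=
    Finset.sum_nonneg (fun W _ => Finset.sum_nonneg (fun x _ => nn x))
  have h3 : 0 ≤ ∑ W ∈ 𝒲, (W.2.1 : ℝ) := Finset.sum_nonneg (fun W _ => Nat.cast_nonneg _)
  refine ⟨by linarith, ?_, ?_, ?_⟩
  · intro x hx
    have := Finset.single_le_sum (f := fun x => (nrm (π x) : ℝ)) (fun x _ => nn x) hx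
    linarith
  · intro W hW v hv
    have a := Finset.single_le_sum (f := fun x => (nrm (π x) : ℝ)) (fun x _ => nn x) hv
    have b := Finset.single_le_sum (f := fun W : L × ℕ × Finset L =>
      ∑ v ∈ W.2.2, (nrm (π v) : ℝ)) (fun W _ => Finset.sum_nonneg (fun x _ => nn x)) hW
    have a' : (nrm (π v) : ℝ) ≤ ∑ x ∈ W.2.2, (nrm (π x) : ℝ) := a
    have b' : (∑ v ∈ W.2.2, (nrm (π v) : ℝ)) ≤ ∑ W ∈ 𝒲, ∑ v ∈ W.2.2, (nrm (π v) : ℝ) := b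
    linarith
  · intro W hW
    have b := Finset.single_le_sum (f := fun W : L × ℕ × Finset L => (W.2.1 : ℝ))
      (fun W _ => Nat.cast_nonneg _) hW
    have b' : (W.2.1 : ℝ) ≤ ∑ W ∈ 𝒲, (W.2.1 : ℝ) := b
    linarith

variable {𝒲 : Finset (L × ℕ × Finset L)} {M δ : ℝ} {K : ℤ}

/-- The hop. -/
theorem hop (hπ : IsHomZ π) (hB : Bds X π 𝒲 M) (hδ : 0 < δ) (hT : (0 : ℝ) < (K : ℝ) + 1)
    (hr : M ^ 2 + 2 * M + 1 ≤ Real.sqrt ((K : ℝ) + 1) * δ) {k : L}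
    (hk : (nrm (π k) : ℝ) = (K : ℝ) + 1) {W : L × ℕ × Finset L} (hW : W ∈ 𝒲)
    (hG : Good X π (ww π ((K : ℝ) + 1) k) δ W) {x : L} (hx : x ∈ X) :
    Conn X {g | nrm (π g) ≤ K} (k * W.1 ^ W.2.1) (k * x * W.1 ^ W.2.1) := by
  have h := (hG.2.2 x hx).translate (P' := {g | nrm (π g) ≤ K}) k ?_
  · rwa [← mul_assoc] at h
  · intro v hv
    have hv1 : (nrm (π v) : ℝ) ≤ M := hB.vertex W hW v hv.1
    have hv2 : δ ≤ chr π (ww π ((K : ℝ) + 1) k) v := by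
      have h1 : max 0 (chr π (ww π ((K : ℝ) + 1) k) x) + δ ≤ chr π (ww π ((K : ℝ) + 1) k) v := hv.2
      have := le_max_left 0 (chr π (ww π ((K : ℝ) + 1) k) x)
      linarith
    change nrm (π (k * v)) ≤ K
    have e := nrm_add (π k) (π v)
    rw [← hπ, hk, chr_ww _ hT] at e
    have hs : 0 ≤ Real.sqrt ((K : ℝ) + 1) := Real.sqrt_nonneg _
    have h3 : Real.sqrt ((K : ℝ) + 1) * δ ≤
        Real.sqrt ((K : ℝ) + 1) * chr π (ww π ((K : ℝ) + 1) k) v :=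
      mul_le_mul_of_nonneg_left hv2 hs
    have h4 : ((nrm (π (k * v)) : ℤ) : ℝ) ≤ (K : ℝ) := by
      rw [e]
      nlinarith [hB.nonneg, sq_nonneg M]
    exact_mod_cast h4

/-- The vertices of the slide. -/
theorem slide_mem (hπ : IsHomZ π) (hB : Bds X π 𝒲 M) (hδ : 0 < δ) (hT : (0 : ℝ) < (K : ℝ) + 1)
    (hr : M ^ 2 + 2 * M + 1 ≤ Real.sqrt ((K : ℝ) + 1) * δ) {k : L}
    {W : L × ℕ × Finset L} (hW : W ∈ 𝒲)
    (hG : Good X π (ww π ((K : ℝ) + 1) k) δ W) {y : L} (hy : y ∈ X)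
    (hky : (nrm (π (k * y)) : ℝ) ≤ (K : ℝ) + 1) {i : ℕ} (hi : 1 ≤ i) (him : i ≤ W.2.1) :
    nrm (π (k * y * W.1 ^ i)) ≤ K := by
  have e := nrm_add_smul (π (k * y)) (π W.1) i
  rw [← pi_pow hπ, ← hπ] at e
  have e2 : dt (π (k * y)) (π W.1) = dt (π k) (π W.1) + dt (π y) (π W.1) := by
    rw [hπ, dt_add]
  rw [chr_ww _ hT k W.1] at e2
  have h1 : dt (π y) (π W.1) ≤ M := dt_le _ _ (hB.letter y hy) (hB.letter _ hG.1)
  have hs : 0 ≤ Real.sqrt ((K : ℝ) + 1) := Real.sqrt_nonneg _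
  have h3 : Real.sqrt ((K : ℝ) + 1) * δ ≤
      Real.sqrt ((K : ℝ) + 1) * chr π (ww π ((K : ℝ) + 1) k) W.1 :=
    mul_le_mul_of_nonneg_left hG.2.1 hs
  have h4 : dt (π (k * y)) (π W.1) ≤ -(M ^ 2 + 2 * M + 1) + M := by rw [e2]; linarith
  have hiR : (1 : ℝ) ≤ (i : ℝ) := by exact_mod_cast hi
  have hiM : (i : ℝ) ≤ M := le_trans (by exact_mod_cast him) (hB.expo W hW)
  have nn : (0 : ℝ) ≤ (nrm (π W.1) : ℝ) := by exact_mod_cast nrm_nonneg (π W.1)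
  have h5 : (i : ℝ) ^ 2 * (nrm (π W.1) : ℝ) ≤ (i : ℝ) * M ^ 2 := by
    have a : (i : ℝ) * (nrm (π W.1) : ℝ) ≤ M * M :=
      mul_le_mul hiM (hB.letter _ hG.1) nn hB.nonneg
    have b := mul_le_mul_of_nonneg_left a (by linarith : (0 : ℝ) ≤ (i : ℝ))
    nlinarith [b]
  have h6 : 2 * (i : ℝ) * dt (π (k * y)) (π W.1) ≤ (i : ℝ) * (2 * (-(M ^ 2 + 2 * M + 1) + M)) := by
    have b := mul_le_mul_of_nonneg_left h4 (by linarith : (0 : ℝ) ≤ 2 * (i : ℝ))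
    nlinarith [b]
  have h7 : (i : ℝ) * (2 * (-(M ^ 2 + 2 * M + 1) + M)) + (i : ℝ) * M ^ 2 ≤ -(i : ℝ) := by
    have hM := hB.nonneg
    have : (i : ℝ) * (M ^ 2 + 2 * M + 1) ≥ 0 := by positivity
    nlinarith [this]
  have h8 : ((nrm (π (k * y * W.1 ^ i)) : ℤ) : ℝ) ≤ (K : ℝ) := by
    rw [e]; linarith
  exact_mod_cast h8

/-- The slide down to the first power. -/
theorem slide_one (hX : SymGen X) (hπ : IsHomZ π) (hB : Bds X π 𝒲 M) (hδ : 0 < δ)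
    (hT : (0 : ℝ) < (K : ℝ) + 1)
    (hr : M ^ 2 + 2 * M + 1 ≤ Real.sqrt ((K : ℝ) + 1) * δ) {k : L}
    {W : L × ℕ × Finset L} (hW : W ∈ 𝒲)
    (hG : Good X π (ww π ((K : ℝ) + 1) k) δ W) {y : L} (hy : y ∈ X)
    (hky : (nrm (π (k * y)) : ℝ) ≤ (K : ℝ) + 1) (i : ℕ) (him : i + 1 ≤ W.2.1) :
    Conn X {g | nrm (π g) ≤ K} (k * y * W.1) (k * y * W.1 ^ (i + 1)) := by
  induction i with
  | zero => rw [zero_add, pow_one]; exact Conn.refl _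
  | succ i ih =>
    refine (ih (by omega)).trans ?_
    have e : k * y * W.1 ^ (i + 1 + 1) = k * y * W.1 ^ (i + 1) * W.1 := by
      rw [pow_succ W.1 (i + 1), mul_assoc (k * y)]
    have m1 := slide_mem hπ hB hδ hT hr hW hG hy hky (i := i + 1) (by omega) (by omega)
    have m2 := slide_mem hπ hB hδ hT hr hW hG hy hky (i := i + 1 + 1) (by omega) him
    rw [e] at m2 ⊢
    exact Conn.step hG.1 m1 m2

theorem slide_full (hX : SymGen X) (hπ : IsHomZ π) (hB : Bds X π 𝒲 M) (hδ : 0 < δ)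
    (hT : (0 : ℝ) < (K : ℝ) + 1)
    (hr : M ^ 2 + 2 * M + 1 ≤ Real.sqrt ((K : ℝ) + 1) * δ) {k : L}
    {W : L × ℕ × Finset L} (hW : W ∈ 𝒲)
    (hG : Good X π (ww π ((K : ℝ) + 1) k) δ W) {y : L} (hy : y ∈ X)
    (hky : nrm (π (k * y)) ≤ K) :
    Conn X {g | nrm (π g) ≤ K} (k * y) (k * y * W.1 ^ W.2.1) := by
  have hm : 1 ≤ W.2.1 := good_pos hπ hδ hG
  have hky' : (nrm (π (k * y)) : ℝ) ≤ (K : ℝ) + 1 := by
    have : ((nrm (π (k * y)) : ℤ) : ℝ) ≤ (K : ℝ) := by exact_mod_cast hky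
    linarith
  have m1 := slide_mem hπ hB hδ hT hr hW hG hy hky' (i := 1) le_rfl hm
  rw [pow_one] at m1
  refine (Conn.step hG.1 hky m1).trans ?_
  obtain ⟨j, hj⟩ : ∃ j, W.2.1 = j + 1 := ⟨W.2.1 - 1, by omega⟩
  rw [hj]
  exact slide_one hX hπ hB hδ hT hr hW hG hy hky' j (by omega)

/-- The lowered vertices. -/
def Dn (X : Finset L) (π : L → Fin n → ℤ) (𝒲 : Finset (L × ℕ × Finset L)) (δ : ℝ) (K : ℤ)
    (k d : L) : Prop :=
  (nrm (π k) ≤ K ∧ d = k) ∨ (nrm (π k) = K + 1 ∧ ∃ W ∈ 𝒲,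
    Good X π (ww π ((K : ℝ) + 1) k) δ W ∧ d = k * W.1 ^ W.2.1)

theorem edge_high_low (hX : SymGen X) (hπ : IsHomZ π) (hB : Bds X π 𝒲 M) (hδ : 0 < δ)
    (hT : (0 : ℝ) < (K : ℝ) + 1)
    (hr : M ^ 2 + 2 * M + 1 ≤ Real.sqrt ((K : ℝ) + 1) * δ) {k x d : L} (hx : x ∈ X)
    (hk : nrm (π k) = K + 1) (hd : ∃ W ∈ 𝒲,
      Good X π (ww π ((K : ℝ) + 1) k) δ W ∧ d = k * W.1 ^ W.2.1) (hkx : nrm (π (k * x)) ≤ K) :
    Conn X {g | nrm (π g) ≤ K} d (k * x) := by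
  obtain ⟨W, hW, hG, rfl⟩ := hd
  have hk' : (nrm (π k) : ℝ) = (K : ℝ) + 1 := by rw [hk]; push_cast; ring
  exact (hop hπ hB hδ hT hr hk' hW hG hx).trans
    ((slide_full hX hπ hB hδ hT hr hW hG hx hkx).symm hX)

theorem edge_high_high (hX : SymGen X) (hπ : IsHomZ π) (hB : Bds X π 𝒲 M) (hδ : 0 < δ)
    (hT : (0 : ℝ) < (K : ℝ) + 1)
    (hr : M ^ 2 + 2 * M + 1 ≤ Real.sqrt ((K : ℝ) + 1) * δ) {k x d d' : L} (hx : x ∈ X)
    (hk : nrm (π k) = K + 1) (hd : ∃ W ∈ 𝒲,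
      Good X π (ww π ((K : ℝ) + 1) k) δ W ∧ d = k * W.1 ^ W.2.1)
    (hkx : nrm (π (k * x)) = K + 1) (hd' : ∃ W ∈ 𝒲,
      Good X π (ww π ((K : ℝ) + 1) (k * x)) δ W ∧ d' = k * x * W.1 ^ W.2.1) :
    Conn X {g | nrm (π g) ≤ K} d d' := by
  obtain ⟨W, hW, hG, rfl⟩ := hd
  obtain ⟨W', hW', hG', rfl⟩ := hd'
  have hk' : (nrm (π k) : ℝ) = (K : ℝ) + 1 := by rw [hk]; push_cast; ring
  have hkx' : (nrm (π (k * x)) : ℝ) = (K : ℝ) + 1 := by rw [hkx]; push_cast; ring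
  have hm : 1 ≤ W.2.1 := good_pos hπ hδ hG
  have a1 := hop hπ hB hδ hT hr hk' hW hG hx
  obtain ⟨j, hj⟩ : ∃ j, W.2.1 = j + 1 := ⟨W.2.1 - 1, by omega⟩
  have a2 := slide_one hX hπ hB hδ hT hr hW hG hx hkx'.le j (by omega)
  rw [← hj] at a2
  have m1 := slide_mem hπ hB hδ hT hr hW hG hx hkx'.le (i := 1) le_rfl hm
  rw [pow_one] at m1
  have a3 := slide_full hX hπ hB hδ hT hr hW' hG' hG.1 m1
  have a4 := hop hπ hB hδ hT hr hkx' hW' hG' hG.1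
  exact a1.trans ((a2.symm hX).trans (a3.trans (a4.symm hX)))

end main

theorem P2 : GoalP2.{u} := by
  intro L _ X n π hX hπ hU
  obtain ⟨𝒲, δ, hδ, hG⟩ := hU
  obtain ⟨M, hB⟩ := exists_bds X π 𝒲
  have hM := hB.nonneg
  refine ⟨⌈((M ^ 2 + 2 * M + 1) / δ) ^ 2⌉, ?_⟩
  intro K hK g h hg hh hc
  have hKR : ((M ^ 2 + 2 * M + 1) / δ) ^ 2 ≤ (K : ℝ) := Int.ceil_le.1 hK
  have hT : (0 : ℝ) < (K : ℝ) + 1 := by
    have := sq_nonneg ((M ^ 2 + 2 * M + 1) / δ)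
    linarith
  have hr : M ^ 2 + 2 * M + 1 ≤ Real.sqrt ((K : ℝ) + 1) * δ := by
    have h1 : (M ^ 2 + 2 * M + 1) / δ ≤ Real.sqrt ((K : ℝ) + 1) :=
      Real.le_sqrt_of_sq_le (by linarith)
    rwa [div_le_iff₀ hδ] at h1
  have hex : ∀ k : L, nrm (π k) ≤ K + 1 → ∃ d, Dn X π 𝒲 δ K k d := by
    intro k hk
    by_cases hle : nrm (π k) ≤ K
    · exact ⟨k, Or.inl ⟨hle, rfl⟩⟩
    · have he : nrm (π k) = K + 1 := by omega
      have hk' : (nrm (π k) : ℝ) = (K : ℝ) + 1 := by rw [he]; push_cast; ring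
      obtain ⟨W, hW, hGW⟩ := hG (ww π ((K : ℝ) + 1) k) (ww_unit _ hT k hk')
      exact ⟨_, Or.inr ⟨he, W, hW, hGW, rfl⟩⟩
  have hedge : ∀ a b : L, nrm (π a) ≤ K + 1 → nrm (π b) ≤ K + 1 → a⁻¹ * b ∈ X →
      ∀ d d', Dn X π 𝒲 δ K a d → Dn X π 𝒲 δ K b d' → Conn X {g | nrm (π g) ≤ K} d d' := by
    intro a b ha hb hab d d' hd hd'
    have hb' : b = a * (a⁻¹ * b) := by group
    have hba : b⁻¹ * a ∈ X := by
      have := hX.1 _ hab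
      rwa [mul_inv_rev, inv_inv] at this
    have ha' : a = b * (b⁻¹ * a) := by group
    rcases hd with ⟨h1, rfl⟩ | ⟨h1, h2⟩
    · rcases hd' with ⟨h3, rfl⟩ | ⟨h3, h4⟩
      · exact Conn.single h1 h3 hab
      · have := edge_high_low hX hπ hB hδ hT hr hba h3 h4 (by rw [← ha']; exact h1)
        rw [← ha'] at this
        exact this.symm hX
    · rcases hd' with ⟨h3, rfl⟩ | ⟨h3, h4⟩
      · have := edge_high_low hX hπ hB hδ hT hr hab h1 h2 (by rw [← hb']; exact h3)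
        rwa [← hb'] at this
      · exact edge_high_high hX hπ hB hδ hT hr hab h1 h2 (by rw [← hb']; exact h3)
          (by rw [← hb']; exact h4)
  have key : ∀ b, Conn X {k | nrm (π k) ≤ K + 1} g b →
      ∀ d, Dn X π 𝒲 δ K b d → Conn X {g | nrm (π g) ≤ K} g d := by
    intro b hb
    induction hb with
    | refl =>
      intro d hd
      rcases hd with ⟨_, rfl⟩ | ⟨h1, _⟩
      · exact Conn.refl _
      · omega
    | @tail b c _ hbc ih =>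
      intro d' hd'
      obtain ⟨d, hd⟩ := hex b hbc.1
      exact (ih d hd).trans (hedge b c hbc.1 hbc.2.1 hbc.2.2 d d' hd hd')
  exact key h hc h (Or.inl ⟨hh, rfl⟩)

end Pool.Agent.Helper58.RO
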